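import Pool.Agent.Q1.CF

set_option autoImplicit false

/-!
# The first Pellian iterate need not be the first Pellian convergent

For `k = 375` the convergent of `√k` of smallest index with integral `R` is `d = 155/8` (index 4), the
first Pellian convergent is `15124/781` (index 10), but the first Pellian fraction in the orbit
`f_d^n(∞)`, `n ≥ 1`, is `457470751/23623688` (`n = 5`).
-/

namespace Pool.Agent.Results.MP_c624c9_nt.Counterexample375

open Pool.Agent.Q1.CF

/-- `d` is the convergent `p_j / q_j` (`j ≥ 1`) of `√k` of smallest index for which `R(k, d)` is an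
integer. -/
def IsFirstIntegralConvergent (k : ℕ) (d : ℚ) : Prop :=
  ∃ j : ℕ, 1 ≤ j ∧ conv k j = d ∧ (∃ r : ℤ, R k (conv k j) = r) ∧
    ∀ i : ℕ, 1 ≤ i → i < j → ¬ ∃ r : ℤ, R k (conv k i) = r

/-- `y` is the first Pellian convergent of `√k`. -/
def IsFirstPellianConvergent (k : ℕ) (y : ℚ) : Prop :=
  ∃ j : ℕ, 1 ≤ j ∧ conv k j = y ∧ Pellian k y ∧ ∀ i : ℕ, 1 ≤ i → i < j → ¬ Pellian k (conv k i)

/-- `y` is the first Pellian fraction among the iterates `f_d^n(∞)`, `n ≥ 1`. -/
def IsFirstPellianIterate (k : ℕ) (d y : ℚ) : Prop :=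
  ∃ n : ℕ, 1 ≤ n ∧ (f k d)^[n] none = some y ∧ Pellian k y ∧
    ∀ i : ℕ, 1 ≤ i → i < n → ∀ z : ℚ, (f k d)^[i] none = some z → ¬ Pellian k z

theorem s_sq : √((375 : ℕ) : ℝ) * √((375 : ℕ) : ℝ) = (375 : ℕ) :=
  Real.mul_self_sqrt (by positivity)

theorem s_lo : (19 : ℝ) ≤ √((375 : ℕ) : ℝ) := by
  apply Real.le_sqrt_of_sq_le
  norm_num

theorem s_hi : √((375 : ℕ) : ℝ) < 20 := by
  rw [Real.sqrt_lt' (by norm_num)]
  norm_num

/-- the first ten partial quotients of `√375` -/
theorem coefs : coef √((375 : ℕ) : ℝ) 0 = 19 ∧ coef √((375 : ℕ) : ℝ) 1 = 2 ∧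
    coef √((375 : ℕ) : ℝ) 2 = 1 ∧ coef √((375 : ℕ) : ℝ) 3 = 2 ∧ coef √((375 : ℕ) : ℝ) 4 = 1 ∧
    coef √((375 : ℕ) : ℝ) 5 = 5 ∧ coef √((375 : ℕ) : ℝ) 6 = 1 ∧ coef √((375 : ℕ) : ℝ) 7 = 2 ∧
    coef √((375 : ℕ) : ℝ) 8 = 1 ∧ coef √((375 : ℕ) : ℝ) 9 = 2 := by
  have h0 : cq √((375 : ℕ) : ℝ) 0 = (√((375 : ℕ) : ℝ) + (0 : ℤ)) / (1 : ℤ) := by
    simp [cq]
  have l : ((19 : ℤ) : ℝ) ≤ √((375 : ℕ) : ℝ) := by exact_mod_cast s_lo
  have u : √((375 : ℕ) : ℝ) < ((19 : ℤ) : ℝ) + 1 := by
    have := s_hi
    push_cast at this ⊢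
    linarith
  obtain ⟨c0, h1⟩ := cq_step' 0 1 19 19 14 19 s_sq l u (by norm_num) h0 (by norm_num)
    (by norm_num) (by norm_num) (by norm_num) (by norm_num)
  obtain ⟨c1, h2⟩ := cq_step' 19 14 2 9 21 19 s_sq l u (by norm_num) h1 (by norm_num)
    (by norm_num) (by norm_num) (by norm_num) (by norm_num)
  obtain ⟨c2, h3⟩ := cq_step' 9 21 1 12 11 19 s_sq l u (by norm_num) h2 (by norm_num)
    (by norm_num) (by norm_num) (by norm_num) (by norm_num)
  obtain ⟨c3, h4⟩ := cq_step' 12 11 2 10 25 19 s_sq l u (by norm_num) h3 (by norm_num)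
    (by norm_num) (by norm_num) (by norm_num) (by norm_num)
  obtain ⟨c4, h5⟩ := cq_step' 10 25 1 15 6 19 s_sq l u (by norm_num) h4 (by norm_num)
    (by norm_num) (by norm_num) (by norm_num) (by norm_num)
  obtain ⟨c5, h6⟩ := cq_step' 15 6 5 15 25 19 s_sq l u (by norm_num) h5 (by norm_num)
    (by norm_num) (by norm_num) (by norm_num) (by norm_num)
  obtain ⟨c6, h7⟩ := cq_step' 15 25 1 10 11 19 s_sq l u (by norm_num) h6 (by norm_num)
    (by norm_num) (by norm_num) (by norm_num) (by norm_num)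
  obtain ⟨c7, h8⟩ := cq_step' 10 11 2 12 21 19 s_sq l u (by norm_num) h7 (by norm_num)
    (by norm_num) (by norm_num) (by norm_num) (by norm_num)
  obtain ⟨c8, h9⟩ := cq_step' 12 21 1 9 14 19 s_sq l u (by norm_num) h8 (by norm_num)
    (by norm_num) (by norm_num) (by norm_num) (by norm_num)
  obtain ⟨c9, -⟩ := cq_step' 9 14 2 19 1 19 s_sq l u (by norm_num) h9 (by norm_num)
    (by norm_num) (by norm_num) (by norm_num) (by norm_num)
  exact ⟨c0, c1, c2, c3, c4, c5, c6, c7, c8, c9⟩

theorem convs : conv 375 1 = 19 ∧ conv 375 2 = 39 / 2 ∧ conv 375 3 = 58 / 3 ∧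
    conv 375 4 = 155 / 8 ∧ conv 375 5 = 213 / 11 ∧ conv 375 6 = 1220 / 63 ∧
    conv 375 7 = 1433 / 74 ∧ conv 375 8 = 4086 / 211 ∧ conv 375 9 = 5519 / 285 ∧
    conv 375 10 = 15124 / 781 := by
  obtain ⟨c0, c1, c2, c3, c4, c5, c6, c7, c8, c9⟩ := coefs
  refine ⟨?_, ?_, ?_, ?_, ?_, ?_, ?_, ?_, ?_, ?_⟩ <;>
  · simp only [conv, num, den, c0, c1, c2, c3, c4, c5, c6, c7, c8, c9]
    norm_num

/-- **The answer to Q1 is negative.** There is a positive integer `k`, not a perfect square, such that
for the convergent `d` of `√k` of smallest index with `R(k, d)` integral, the first Pellian iterate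
`f_d^n(∞)` (`n ≥ 1`) is different from the first Pellian convergent of `√k`; `k = 375` is an
example. -/
theorem result : ∃ k : ℕ, k = 375 ∧ 0 < k ∧ ¬ IsSquare k ∧ ∃ d x y : ℚ,
    IsFirstIntegralConvergent k d ∧ IsFirstPellianIterate k d x ∧ IsFirstPellianConvergent k y ∧
      x ≠ y := by
  obtain ⟨v1, v2, v3, v4, v5, v6, v7, v8, v9, v10⟩ := convs
  refine ⟨375, rfl, by norm_num, ?_, 155 / 8, 457470751 / 23623688, 15124 / 781, ?_, ?_, ?_, by norm_num⟩
  · rintro ⟨r, hr⟩
    rcases lt_or_ge r 20 with h | h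
    · interval_cases r <;> omega
    · nlinarith
  · refine ⟨4, by norm_num, v4, ?_, ?_⟩
    · refine ⟨-3844, ?_⟩
      rw [v4]; norm_num [R]
    · intro i hi1 hi4
      interval_cases i
      · rw [v1, int_iff 722 7 (by norm_num) _ (by norm_num [R])]; decide
      · rw [v2, int_iff (-2028) 7 (by norm_num) _ (by norm_num [R])]; decide
      · rw [v3, int_iff 13456 11 (by norm_num) _ (by norm_num [R])]; decide
  · have e1 : (f 375 (155 / 8))^[1] none = some (155 / 8) := rfl
    have e2 : (f 375 (155 / 8))^[2] none = some (9605 / 496) := by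
      rw [Function.iterate_succ_apply', e1]; norm_num [f]
    have e3 : (f 375 (155 / 8))^[3] none = some (595355 / 30744) := by
      rw [Function.iterate_succ_apply', e2]; norm_num [f]
    have e4 : (f 375 (155 / 8))^[4] none = some (36902405 / 1905632) := by
      rw [Function.iterate_succ_apply', e3]; norm_num [f]
    have e5 : (f 375 (155 / 8))^[5] none = some (457470751 / 23623688) := by
      rw [Function.iterate_succ_apply', e4]; norm_num [f]
    refine ⟨5, by norm_num, e5, ?_, ?_⟩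
    · rw [pell_iff 375 457470751 23623688 (by norm_num) (by norm_num) (by norm_num) _ (by norm_num)]
      norm_num
    · intro i hi1 hi5 z hz
      interval_cases i
      · rw [e1] at hz; cases hz
        rw [pell_iff 375 155 8 (by norm_num) (by norm_num) (by norm_num) _ (by norm_num)]
        norm_num
      · rw [e2] at hz; cases hz
        rw [pell_iff 375 9605 496 (by norm_num) (by norm_num) (by norm_num) _ (by norm_num)]
        norm_num
      · rw [e3] at hz; cases hz
        rw [pell_iff 375 595355 30744 (by norm_num) (by norm_num) (by norm_num) _ (by norm_num)]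
        norm_num
      · rw [e4] at hz; cases hz
        rw [pell_iff 375 36902405 1905632 (by norm_num) (by norm_num) (by norm_num) _ (by norm_num)]
        norm_num
  · refine ⟨10, by norm_num, v10, ?_, ?_⟩
    · rw [pell_iff 375 15124 781 (by norm_num) (by norm_num) (by norm_num) _ (by norm_num)]
      norm_num
    · intro i hi1 hi10
      interval_cases i
      · rw [v1, pell_iff 375 19 1 (by norm_num) (by norm_num) (by norm_num) _ (by norm_num)]; norm_num
      · rw [v2, pell_iff 375 39 2 (by norm_num) (by norm_num) (by norm_num) _ (by norm_num)]; norm_num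
      · rw [v3, pell_iff 375 58 3 (by norm_num) (by norm_num) (by norm_num) _ (by norm_num)]; norm_num
      · rw [v4, pell_iff 375 155 8 (by norm_num) (by norm_num) (by norm_num) _ (by norm_num)]; norm_num
      · rw [v5, pell_iff 375 213 11 (by norm_num) (by norm_num) (by norm_num) _ (by norm_num)]; norm_num
      · rw [v6, pell_iff 375 1220 63 (by norm_num) (by norm_num) (by norm_num) _ (by norm_num)]
        norm_num
      · rw [v7, pell_iff 375 1433 74 (by norm_num) (by norm_num) (by norm_num) _ (by norm_num)]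
        norm_num
      · rw [v8, pell_iff 375 4086 211 (by norm_num) (by norm_num) (by norm_num) _ (by norm_num)]
        norm_num
      · rw [v9, pell_iff 375 5519 285 (by norm_num) (by norm_num) (by norm_num) _ (by norm_num)]
        norm_num

end Pool.Agent.Results.MP_c624c9_nt.Counterexample375
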